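import Mathlib
import Pool.Agent.H.MP_1441be_gt.B
set_option autoImplicit false
namespace Pool.Agent.Results.MP_1441be_gt.Yes

def SC (k : ℕ) : Set ((Fin k → unitInterval) → ℝ) :=
  {f | ∀ (i : Fin k) (x : Fin k → unitInterval),
    Continuous fun t : unitInterval => f (Function.update x i t)}

theorem result (n m : ℕ) (hnm : n < m) : ¬ ∃ Φ : SC m → SC n, Topology.IsEmbedding Φ :=
  Pool.Agent.H.MP_1441be_gt.main n m hnm

end Pool.Agent.Results.MP_1441be_gt.Yes
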